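import Pool.Agent.X184.SS.Stm2

set_option autoImplicit false

namespace Pool.Agent.X100.SP

open Finset Pool.Agent.X184.SS

lemma comb (p : ℕ) (hp : 0 < p) (w : ℕ → ℕ →₀ ℝ) (hnn : ∀ r j, 0 ≤ w r j)
    (h1 : ∀ r, ∑ j ∈ (w r).support, w r j = 1) :
    ∃ z : ℕ →₀ ℝ, (∀ j, 0 ≤ z j) ∧ (∑ j ∈ z.support, z j = 1) ∧
      (∀ j, j ∈ z.support ↔ ∃ r < p, j ∈ (w r).support) ∧
      ∀ F : Finset ℕ, ∑ j ∈ F, z j = (1/(p:ℝ)) * ∑ r ∈ range p, ∑ j ∈ F, w r j := by
  have hpR : (0:ℝ) < p := by exact_mod_cast hp
  obtain ⟨z, hz⟩ : ∃ z : ℕ →₀ ℝ, z = (1/(p:ℝ)) • ∑ r ∈ range p, w r := ⟨_, rfl⟩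
  have hzj : ∀ j, z j = (1/(p:ℝ)) * ∑ r ∈ range p, w r j := by
    intro j; rw [hz, Finsupp.smul_apply, Finsupp.finset_sum_apply, smul_eq_mul]
  have hF : ∀ F : Finset ℕ, ∑ j ∈ F, z j = (1/(p:ℝ)) * ∑ r ∈ range p, ∑ j ∈ F, w r j := by
    intro F
    rw [Finset.sum_comm, Finset.mul_sum]
    exact Finset.sum_congr rfl (fun j _ => hzj j)
  have hs : ∀ j, j ∈ z.support ↔ ∃ r < p, j ∈ (w r).support := by
    intro j
    rw [Finsupp.mem_support_iff, hzj]
    constructor
    · intro h
      by_contra hc
      push Not at hc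
      apply h
      rw [Finset.sum_eq_zero, mul_zero]
      intro r hr
      have := hc r (Finset.mem_range.1 hr)
      simpa using this
    · rintro ⟨r, hr, hj⟩
      have h0 : 0 < w r j := lt_of_le_of_ne (hnn r j) (Ne.symm (Finsupp.mem_support_iff.1 hj))
      have : 0 < ∑ r ∈ range p, w r j := 
        Finset.sum_pos' (fun i _ => hnn i j) ⟨r, Finset.mem_range.2 hr, h0⟩
      positivity
  refine ⟨z, ?_, ?_, hs, hF⟩
  · intro j; rw [hzj]; exact mul_nonneg (by positivity) (Finset.sum_nonneg (fun r _ => hnn r j))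
  · rw [hF]
    have : ∑ r ∈ range p, ∑ j ∈ z.support, w r j = ∑ r ∈ range p, (1:ℝ) := by
      apply Finset.sum_congr rfl
      intro r hr
      rw [← h1 r]
      symm
      apply Finset.sum_subset
      · intro j hj
        exact (hs j).2 ⟨r, Finset.mem_range.1 hr, hj⟩
      · intro j _ hj
        simpa using hj
    rw [this, Finset.sum_const, Finset.card_range, nsmul_eq_mul, mul_one]
    field_simp

theorem t_LEM : S_LEM := by
  intro hU hH n
  induction n with
  | zero =>
    intro N hN ε hε
    obtain ⟨p, hp⟩ := exists_nat_gt (1/ε)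
    have hpR : (0:ℝ) < p := lt_trans (by positivity) hp
    have hp0 : 0 < p := by exact_mod_cast hpR
    refine ⟨p, fun u => ?_⟩
    obtain ⟨a, ha⟩ : ∃ a : ℕ → ℕ, a = fun r => Nat.nth (fun x => x ∈ N) (u + r) := ⟨_, rfl⟩
    have hN' : (setOf (fun x => x ∈ N)).Infinite := hN
    have hmono : StrictMono a := by
      intro r s hrs
      rw [ha]
      exact Nat.nth_strictMono hN' (by omega)
    have haN : ∀ r, a r ∈ N := fun r => by rw [ha]; exact Nat.nth_mem_of_infinite hN' _
    have hau : ∀ r, u ≤ a r := by
      intro r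
      have := (Nat.nth_strictMono hN').le_apply (x := u + r)
      rw [ha]
      exact le_trans (by omega) this
    obtain ⟨z, hz0, hz1, hzs, hzF⟩ := comb p hp0 (fun r => Finsupp.single (a r) 1) 
      (by intro r j; simp only [Finsupp.single_apply]; split_ifs <;> norm_num)
      (by intro r; rw [Finsupp.support_single_ne_zero _ one_ne_zero]; simp)
    have hsup : ∀ j, j ∈ z.support ↔ ∃ r < p, j = a r := by
      intro j
      rw [hzs]
      simp only [Finsupp.support_single_ne_zero _ (one_ne_zero : (1:ℝ) ≠ 0), Finset.mem_singleton]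
    refine ⟨z, fun r => {a r}, hz0, hz1, ?_, ?_, ?_, ?_, ?_, ?_⟩
    · intro j hj
      obtain ⟨r, _, rfl⟩ := (hsup j).1 hj
      exact ⟨haN r, hau r⟩
    · intro j hj
      obtain ⟨r, hr, rfl⟩ := (hsup j).1 hj
      simp only [Finset.mem_biUnion, Finset.mem_univ, true_and, Finset.mem_singleton]
      exact ⟨⟨r, hr⟩, rfl⟩
    · intro r
      show ({a r} : Finset ℕ).card ≤ 1
      simp
    · intro r s hrs x hx y hy
      rw [Finset.mem_singleton] at hx hy
      rw [hx, hy]
      exact hmono hrs
    · intro r x hx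
      rw [Finset.mem_singleton] at hx
      rw [hx]
      exact (hsup _).2 ⟨r, r.2, rfl⟩
    · intro F hF
      have hF' : F.card ≤ 1 := hF
      rw [hzF]
      have hle : ∑ r ∈ range p, ∑ j ∈ F, (Finsupp.single (a r) (1:ℝ)) j ≤ 1 := by
        rcases Finset.card_le_one_iff_subset_singleton.1 hF' with ⟨x, hx⟩
        calc _ ≤ ∑ r ∈ range p, ∑ j ∈ {x}, (Finsupp.single (a r) (1:ℝ)) j := by
              apply Finset.sum_le_sum; intro r _
              apply Finset.sum_le_sum_of_subset_of_nonneg hx
              intro j _ _; simp only [Finsupp.single_apply]; split_ifs <;> norm_num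
          _ = ∑ r ∈ range p, if a r = x then (1:ℝ) else 0 := by simp [Finsupp.single_apply]
          _ = (((range p).filter (fun r => a r = x)).card : ℝ) := by rw [Finset.sum_boole]
          _ ≤ 1 := by
              have : ((range p).filter (fun r => a r = x)).card ≤ 1 := by
                rw [Finset.card_le_one]
                intro r hr s hs
                rw [Finset.mem_filter] at hr hs
                exact hmono.injective (hr.2.trans hs.2.symm)
              exact_mod_cast this
      calc (1/(p:ℝ)) * _ ≤ (1/(p:ℝ)) * 1 := mul_le_mul_of_nonneg_left hle (by positivity)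
        _ ≤ ε := by
          rw [mul_one, div_le_iff₀ hpR]
          have := (div_lt_iff₀ hε).1 hp
          linarith
  | succ n ih =>
    intro N hN ε hε
    obtain ⟨p, hp⟩ := exists_nat_gt (2/ε)
    have hpR : (0:ℝ) < p := lt_trans (by positivity) hp
    have hp0 : 0 < p := by exact_mod_cast hpR
    refine ⟨p, fun u => ?_⟩
    have hw : ∀ v : ℕ, ∃ w : ℕ →₀ ℝ, (∀ j, 0 ≤ w j) ∧ (∑ j ∈ w.support, w j = 1) ∧
        (∀ j ∈ w.support, j ∈ N ∧ u ≤ j ∧ v < j) ∧ w.support ∈ Sch (n+1) ∧
        ∀ F ∈ Sch n, ∑ j ∈ F, w j ≤ 1 / ((p:ℝ) * ((v:ℝ) + 1)) := by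
      intro v
      obtain ⟨q, hq⟩ := ih N hN (1 / ((p:ℝ) * ((v:ℝ) + 1))) (by positivity)
      obtain ⟨z, G, h0, h1, hs, hsub, hG, hord, hGz, hF⟩ := hq (max (max (v+1) u) q)
      refine ⟨z, h0, h1, ?_, ?_, hF⟩
      · intro j hj
        obtain ⟨hjN, hj2⟩ := hs j hj
        refine ⟨hjN, ?_, ?_⟩
        · exact le_trans (le_trans (le_max_right _ _) (le_max_left _ _)) hj2
        · have := le_trans (le_trans (le_max_left _ _) (le_max_left _ _)) hj2
          omega
      · refine hH (n+1) (univ.biUnion G) z.support (hU n q G hG hord ?_) hsub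
        intro r a ha
        have h2 := (hs a (hGz r a ha)).2
        have h3 := le_trans (le_max_right _ _) h2
        omega
    choose w hw0 hw1 hws hwm hwF using hw
    obtain ⟨v, hv⟩ : ∃ v : ℕ → ℕ, ∀ r, v (r+1) = (w (v r)).support.sup id :=
      ⟨fun r => Nat.rec 0 (fun _ x => (w x).support.sup id) r, fun r => rfl⟩
    have hvle : ∀ r, ∀ j ∈ (w (v r)).support, v r < j ∧ j ≤ v (r+1) := by
      intro r j hj
      refine ⟨(hws _ j hj).2.2, ?_⟩
      rw [hv]
      exact Finset.le_sup (f := id) hj
    have hvmono : StrictMono v := by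
      apply strictMono_nat_of_lt_succ
      intro r
      have hne : (w (v r)).support.Nonempty := by
        rw [Finset.nonempty_iff_ne_empty]
        intro h
        have := hw1 (v r)
        rw [h] at this
        simp at this
      obtain ⟨j, hj⟩ := hne
      exact lt_of_lt_of_le (hvle r j hj).1 (hvle r j hj).2
    obtain ⟨z, hz0, hz1, hzs, hzF⟩ := comb p hp0 (fun r => w (v r)) (fun r j => hw0 _ j) (fun r => hw1 _)
    refine ⟨z, fun r => (w (v r)).support, hz0, hz1, ?_, ?_, ?_, ?_, ?_, ?_⟩
    · intro j hj
      obtain ⟨r, _, hj'⟩ := (hzs j).1 hj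
      exact ⟨(hws _ j hj').1, (hws _ j hj').2.1⟩
    · intro j hj
      obtain ⟨r, hr, hj'⟩ := (hzs j).1 hj
      rw [Finset.mem_biUnion]
      exact ⟨⟨r, hr⟩, Finset.mem_univ _, hj'⟩
    · intro r; exact hwm _
    · intro r s hrs x hx y hy
      have h1 := (hvle r x hx).2
      have h2 := (hvle s y hy).1
      have h0 : (r:ℕ) + 1 ≤ (s:ℕ) := hrs
      have h3 : v ((r:ℕ)+1) ≤ v s := hvmono.monotone h0
      omega
    · intro r x hx
      exact (hzs x).2 ⟨r, r.2, hx⟩
    · intro F hF
      rcases F.eq_empty_or_nonempty with rfl | hne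
      · simp; exact hε.le
      obtain ⟨k, Gk, hGk, hord, hFe, hk⟩ := hF
      obtain ⟨m, hm⟩ : ∃ m, m = F.min' hne := ⟨_, rfl⟩
      have hmF : m ∈ F := by rw [hm]; exact F.min'_mem hne
      have hkm : k ≤ m + 1 := hk m hmF
      have key : ∀ r, ∑ j ∈ F, w (v r) j ≤ 1/(p:ℝ) + (if v r < m ∧ m ≤ v (r+1) then (1:ℝ) else 0) := by
        intro r
        have h5 : (0:ℝ) ≤ (if v r < m ∧ m ≤ v (r+1) then (1:ℝ) else 0) := by
          split_ifs <;> norm_num
        have h6 : 0 ≤ 1/(p:ℝ) := by positivity
        by_cases hc1 : v (r+1) < m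
        · have : ∑ j ∈ F, w (v r) j = 0 := by
            apply Finset.sum_eq_zero
            intro j hj
            by_contra hne'
            have hj' : j ∈ (w (v r)).support := Finsupp.mem_support_iff.2 hne'
            have h1 := (hvle r j hj').2
            have h2 := F.min'_le j hj
            omega
          rw [this]
          linarith
        · by_cases hc2 : v r < m
          · rw [if_pos ⟨hc2, by omega⟩]
            have : ∑ j ∈ F, w (v r) j ≤ 1 := by
              rw [← hw1 (v r)]
              calc ∑ j ∈ F, w (v r) j ≤ ∑ j ∈ F ∪ (w (v r)).support, w (v r) j := by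
                    apply Finset.sum_le_sum_of_subset_of_nonneg Finset.subset_union_left
                    intro j _ _; exact hw0 _ j
                _ = ∑ j ∈ (w (v r)).support, w (v r) j := by
                    symm
                    apply Finset.sum_subset Finset.subset_union_right
                    intro j _ hj
                    simpa using hj
            linarith
          · push Not at hc2
            have h1 : ∑ j ∈ F, w (v r) j = ∑ i : Fin k, ∑ j ∈ Gk i, w (v r) j := by
              rw [hFe, Finset.sum_biUnion]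
              intro i _ j _ hij
              rw [Function.onFun, Finset.disjoint_left]
              intro a ha hb
              rcases lt_or_gt_of_ne hij with h | h
              · exact lt_irrefl _ (hord i j h a ha a hb)
              · exact lt_irrefl _ (hord j i h a hb a ha)
            have h2 : ∑ i : Fin k, ∑ j ∈ Gk i, w (v r) j ≤ ∑ i : Fin k, 1 / ((p:ℝ) * ((v r : ℝ) + 1)) := 
              Finset.sum_le_sum (fun i _ => hwF _ _ (hGk i).2)
            have h3 : ∑ i : Fin k, 1 / ((p:ℝ) * ((v r : ℝ) + 1)) = k * (1 / ((p:ℝ) * ((v r : ℝ) + 1))) := by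
              rw [Finset.sum_const, Finset.card_univ, Fintype.card_fin, nsmul_eq_mul]
            have h4 : (k:ℝ) * (1 / ((p:ℝ) * ((v r : ℝ) + 1))) ≤ 1/p := by
              rw [mul_one_div, div_le_div_iff₀ (by positivity) hpR]
              have : (k:ℝ) ≤ v r + 1 := by exact_mod_cast (by omega : k ≤ v r + 1)
              nlinarith
            linarith
      rw [hzF]
      have hsum : ∑ r ∈ range p, ∑ j ∈ F, w (v r) j ≤ 2 := by
        calc _ ≤ ∑ r ∈ range p, (1/(p:ℝ) + (if v r < m ∧ m ≤ v (r+1) then (1:ℝ) else 0)) :=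
              Finset.sum_le_sum (fun r _ => key r)
          _ = 1 + (((range p).filter (fun r => v r < m ∧ m ≤ v (r+1))).card : ℝ) := by
              rw [Finset.sum_add_distrib, Finset.sum_boole, Finset.sum_const, Finset.card_range,
                nsmul_eq_mul]
              congr 1
              field_simp
          _ ≤ 1 + 1 := by
              have h7 : ((range p).filter (fun r => v r < m ∧ m ≤ v (r+1))).card ≤ 1 := by
                rw [Finset.card_le_one]
                intro r hr s hs
                rw [Finset.mem_filter] at hr hs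
                by_contra hne'
                rcases lt_or_gt_of_ne hne' with h | h
                · have := hvmono.monotone (show r + 1 ≤ s from h)
                  omega
                · have := hvmono.monotone (show s + 1 ≤ r from h)
                  omega
              have h8 : (((range p).filter (fun r => v r < m ∧ m ≤ v (r+1))).card : ℝ) ≤ 1 := by
                exact_mod_cast h7
              linarith
          _ = 2 := by norm_num
      calc (1/(p:ℝ)) * _ ≤ (1/(p:ℝ)) * 2 := mul_le_mul_of_nonneg_left hsum (by positivity)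
        _ ≤ ε := by
          rw [one_div_mul_eq_div, div_le_iff₀ hpR]
          have := (div_lt_iff₀ hε).1 hp
          linarith

end Pool.Agent.X100.SP
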